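import Pool.Agent.H24.Nlt2

set_option autoImplicit false

namespace Pool.Agent.Results.MP_398f0f_lc.NPComplete

open Pool.Agent.H11.PT Pool.Agent.H24.Nlt

theorem result : NPComplete NLT := ⟨nlt_np, hard.npHard⟩

end Pool.Agent.Results.MP_398f0f_lc.NPComplete
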